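import Pool.Agent.H36.SZ.Pw
import Pool.Agent.H36.SZ.St

/-!
# All powers `lam >= 2` on one circle, from the kernels on that circle; the case `r >= e^(3/2)`

`all_lt_at` is `all_lt` of `H36/SZ/Pw.lean` with the hypothesis on the circle `|z| = r` only.
`st_all`: the static theorem `Sg.static` for all functions of the class Sigma: for `t > 3/2` apply it to
`F_p z = F (p z) / p`, `p = e^s`, `0 < s <= t - 3/2`, and let `s -> 0`; for `t = 3/2` let `t` tend to
`3/2` from above (`t -> Zf F t x` is continuous for `t > 0`).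
-/

open Complex MeasureTheory Set Filter Topology
open scoped ComplexConjugate Real

namespace Pool.Agent.H13.E32

open Pool.Agent.H15.Sig Pool.Agent.H36.SZ

variable {F : ℂ → ℂ} {b : ℕ → ℂ}

private theorem exp_pt {r : ℝ} (hr : 1 < r) (θ : ℝ) :
    Complex.exp ((Real.log r : ℝ) + θ * I) = (r : ℂ) * Complex.exp (θ * I) := by
  rw [Complex.exp_add, ← Complex.ofReal_exp, Real.exp_log (by linarith)]

private theorem sig_cont (h : IsSig F b) {r : ℝ} (hr : 1 < r) :
    Continuous (fun θ : ℝ => yy F (Real.log r) θ) := by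
  unfold yy G
  refine Continuous.pow (Continuous.norm ?_) 2
  rw [continuous_iff_continuousAt]
  intro θ
  have h1 : ContinuousAt F (Complex.exp ((Real.log r : ℝ) + θ * I)) := by
    refine (h.differentiableAt ?_).continuousAt
    rw [exp_pt hr]
    exact norm_circle_pt hr θ
  exact ContinuousAt.comp (f := fun θ : ℝ => Complex.exp ((Real.log r : ℝ) + θ * I)) h1
    (by fun_prop)

private theorem mean_eq {lam r : ℝ} (hr : 1 < r) (F : ℂ → ℂ) :
    integralMean lam r F = ((2 * π)⁻¹ * ∫ θ in (-π)..π, yy F (Real.log r) θ ^ (lam / 2)) ^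
      (1 / lam) := by
  rw [integralMean_eq]
  congr 2
  apply intervalIntegral.integral_congr
  intro θ _
  simp only
  unfold yy G
  rw [exp_pt hr, ← Real.rpow_natCast, ← Real.rpow_mul (norm_nonneg _)]
  congr 1
  push_cast
  ring

private theorem yy_nonneg (F : ℂ → ℂ) (t θ : ℝ) : 0 ≤ yy F t θ := by
  unfold yy
  positivity

theorem all_lt_at (h : IsSig F b) (hb : ‖b 1‖ < 1) {lam r : ℝ} (h2 : 2 ≤ lam)
    (hr : 1 < r) (H : ∀ x : ℝ, 0 < x → Zf F (Real.log r) x ≤ Zf J (Real.log r) x) :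
    integralMean lam r F < integralMean lam r (fun z => z + z⁻¹) := by
  rcases h2.eq_or_lt with h2' | h2'
  · subst h2'
    exact Pool.Agent.H97.SIM.fin_lt h hb le_rfl (by norm_num) hr
  have ht : 0 < Real.log r := Real.log_pos hr
  have hp : 1 < lam / 2 := by linarith
  have hJ : IsSig (fun z : ℂ => z + z⁻¹) jb := isSig_J
  have cF := sig_cont h hr
  have cJ : Continuous (fun θ : ℝ => yy J (Real.log r) θ) := sig_cont hJ hr
  have tF := kp_tonelli hp cF (yy_nonneg F _)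
  have tJ := kp_tonelli hp cJ (yy_nonneg J _)
  have hle : ∀ x ∈ Ioi (0:ℝ), 0 ≤ x ^ (lam / 2 - 2) * (∫ θ in (-π)..π, Ph x (yy J (Real.log r) θ)) -
      x ^ (lam / 2 - 2) * (∫ θ in (-π)..π, Ph x (yy F (Real.log r) θ)) := by
    intro x hx
    have hx0 : (0:ℝ) < x := hx
    have h3 : (∫ θ in (-π)..π, Ph x (yy F (Real.log r) θ)) ≤
        ∫ θ in (-π)..π, Ph x (yy J (Real.log r) θ) := H x hx0
    have h4 := mul_le_mul_of_nonneg_left h3 (Real.rpow_nonneg hx0.le (lam / 2 - 2))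
    linarith
  -- positivity near zero
  have hc : ∀ g : ℝ → ℝ, Continuous g → (∀ θ, 0 ≤ g θ) →
      Continuous (fun x : ℝ => ∫ θ in (-π)..π, Ph |x| (g θ)) := by
    intro g hg hg0
    apply intervalIntegral.continuous_parametric_intervalIntegral_of_continuous'
    have h5 : Continuous (fun z : ℝ × ℝ => Ph |z.1| |g z.2|) :=
      Ph_cont.comp (by fun_prop : Continuous fun z : ℝ × ℝ => ((z.1, g z.2) : ℝ × ℝ))
    refine h5.congr fun z => ?_
    simp only [Function.uncurry]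
    rw [abs_of_nonneg (hg0 z.2)]
  have h0 : (∫ θ in (-π)..π, Ph |(0:ℝ)| (yy F (Real.log r) θ)) <
      ∫ θ in (-π)..π, Ph |(0:ℝ)| (yy J (Real.log r) θ) := by
    rw [abs_zero]
    have e1 : ∀ g : ℂ → ℂ, (∫ θ in (-π)..π, Ph 0 (yy g (Real.log r) θ)) =
        ∫ θ in (-π)..π, yy g (Real.log r) θ := by
      intro g
      apply intervalIntegral.integral_congr
      intro θ _
      exact Ph_zero (yy_nonneg g _ θ)
    rw [e1, e1]
    have h6 := Pool.Agent.H97.SIM.fin_lt h hb (lam := 2) le_rfl (by norm_num) hr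
    rw [mean_eq hr, mean_eq hr] at h6
    have hnn : ∀ g : ℂ → ℂ,
        0 ≤ (2 * π)⁻¹ * ∫ θ in (-π)..π, yy g (Real.log r) θ ^ ((2:ℝ) / 2) := fun g =>
      mul_nonneg (by positivity) (intervalIntegral.integral_nonneg (by
        linarith [Real.pi_pos]) fun θ _ => Real.rpow_nonneg (yy_nonneg _ _ _) _)
    have h7 := (Real.rpow_lt_rpow_iff (hnn F) (hnn _) (by norm_num : (0:ℝ) < 1 / 2)).1 h6
    have h8 := lt_of_mul_lt_mul_left h7 (by positivity)
    have e2 : ∀ g : ℂ → ℂ, (∫ θ in (-π)..π, yy g (Real.log r) θ ^ ((2:ℝ) / 2)) =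
        ∫ θ in (-π)..π, yy g (Real.log r) θ := by
      intro g
      apply intervalIntegral.integral_congr
      intro θ _
      simp only
      rw [show (2:ℝ) / 2 = 1 by norm_num, Real.rpow_one]
    rw [e2, e2] at h8
    exact h8
  obtain ⟨δ, hδ, hδp⟩ : ∃ δ > (0:ℝ), ∀ x ∈ Ioo (0:ℝ) δ,
      (∫ θ in (-π)..π, Ph x (yy F (Real.log r) θ)) <
        ∫ θ in (-π)..π, Ph x (yy J (Real.log r) θ) := by
    have h6 := ((hc _ cF (yy_nonneg F _)).tendsto 0).eventually_lt
      ((hc _ cJ (yy_nonneg J _)).tendsto 0) h0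
    obtain ⟨δ, hδ, h7⟩ := Metric.eventually_nhds_iff.1 h6
    refine ⟨δ, hδ, fun x hx => ?_⟩
    have h8 := h7 (y := x) (by rw [Real.dist_0_eq_abs, abs_of_pos hx.1]; exact hx.2)
    rwa [abs_of_pos hx.1] at h8
  have hint : IntegrableOn (fun x : ℝ =>
      x ^ (lam / 2 - 2) * (∫ θ in (-π)..π, Ph x (yy J (Real.log r) θ)) -
      x ^ (lam / 2 - 2) * (∫ θ in (-π)..π, Ph x (yy F (Real.log r) θ))) (Ioi 0) := tJ.1.sub tF.1
  have h6 : 0 < ∫ x in Ioi (0:ℝ),
      (x ^ (lam / 2 - 2) * (∫ θ in (-π)..π, Ph x (yy J (Real.log r) θ)) -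
      x ^ (lam / 2 - 2) * (∫ θ in (-π)..π, Ph x (yy F (Real.log r) θ))) := by
    rw [setIntegral_pos_iff_support_of_nonneg_ae _ hint]
    · have h7 : Ioo (0:ℝ) δ ⊆ (Function.support (fun x : ℝ =>
          x ^ (lam / 2 - 2) * (∫ θ in (-π)..π, Ph x (yy J (Real.log r) θ)) -
          x ^ (lam / 2 - 2) * (∫ θ in (-π)..π, Ph x (yy F (Real.log r) θ)))) ∩ Ioi 0 := by
        intro x hx
        refine ⟨?_, hx.1⟩
        have h8 := mul_lt_mul_of_pos_left (hδp x hx) (Real.rpow_pos_of_pos hx.1 (lam / 2 - 2))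
        have h9 : 0 < x ^ (lam / 2 - 2) * (∫ θ in (-π)..π, Ph x (yy J (Real.log r) θ)) -
            x ^ (lam / 2 - 2) * (∫ θ in (-π)..π, Ph x (yy F (Real.log r) θ)) := by linarith
        exact h9.ne'
      refine lt_of_lt_of_le ?_ (measure_mono h7)
      rw [Real.volume_Ioo, ENNReal.ofReal_pos]
      linarith
    · rw [Filter.EventuallyLE, ae_restrict_iff' measurableSet_Ioi]
      exact Filter.Eventually.of_forall (fun x hx => hle x hx)
  rw [integral_sub tJ.1 tF.1, tF.2, tJ.2] at h6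
  have h7 : (∫ θ in (-π)..π, yy F (Real.log r) θ ^ (lam / 2)) <
      ∫ θ in (-π)..π, yy J (Real.log r) θ ^ (lam / 2) :=
    lt_of_mul_lt_mul_left (by linarith) (kp_pos hp).le
  rw [mean_eq hr, mean_eq hr]
  apply Real.rpow_lt_rpow _ _ (by positivity)
  · exact mul_nonneg (by positivity) (intervalIntegral.integral_nonneg (by
      linarith [Real.pi_pos]) fun θ _ => Real.rpow_nonneg (yy_nonneg _ _ _) _)
  · exact mul_lt_mul_of_pos_left h7 (by positivity)

/-- the dilation `F (e^s z) / e^s` -/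
private theorem dil_Z (F : ℂ → ℂ) (s t x : ℝ) :
    Zf (fun z => F ((Real.exp s : ℝ) * z) / (Real.exp s : ℝ)) (t - s)
      (x / Real.exp (2 * s)) = (Real.exp (2 * s))⁻¹ * Zf F t x := by
  have hp2 : Real.exp (2 * s) = Real.exp s ^ 2 := by
    rw [← Real.exp_nat_mul]; norm_num
  have hpp : 0 < Real.exp (2 * s) := Real.exp_pos _
  have hG : ∀ θ : ℝ, yy (fun z => F ((Real.exp s : ℝ) * z) / (Real.exp s : ℝ)) (t - s) θ =
      (Real.exp (2 * s))⁻¹ * yy F t θ := by
    intro θ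
    unfold yy G
    have e1 : ((Real.exp s : ℝ) : ℂ) * Complex.exp (((t - s : ℝ) : ℂ) + θ * I) =
        Complex.exp (t + θ * I) := by
      rw [Complex.ofReal_exp, ← Complex.exp_add]
      congr 1
      push_cast
      ring
    simp only
    rw [e1, norm_div, div_pow, Complex.norm_real, Real.norm_of_nonneg (Real.exp_pos s).le, hp2]
    ring
  unfold Zf
  rw [← intervalIntegral.integral_const_mul]
  apply intervalIntegral.integral_congr
  intro θ _
  simp only
  rw [hG, div_eq_inv_mul, Ph_scale (inv_pos.2 hpp)]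

/-- the static theorem for `t > 3/2` and all functions of the class -/
theorem st_gt (h : IsSig F b) {t x : ℝ} (ht : 3 / 2 < t) (hx : 0 ≤ x) :
    Zf F t x ≤ Zf J t x := by
  have hJc : Continuous (fun s : ℝ => Real.exp (2 * s) *
      Zf J |t - s| |x / Real.exp (2 * s)|) := by
    have h1 : Continuous (fun s : ℝ => ((t - s, x / Real.exp (2 * s)) : ℝ × ℝ)) := by
      refine Continuous.prodMk (by fun_prop) ?_
      exact continuous_const.div (by fun_prop) (fun s => (Real.exp_pos _).ne')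
    exact (by fun_prop : Continuous fun s : ℝ => Real.exp (2 * s)).mul
      ((an_J.Zf_cont one_pos).comp h1)
  have hlim : Tendsto (fun s : ℝ => Real.exp (2 * s) * Zf J |t - s| |x / Real.exp (2 * s)|)
      (𝓝[>] 0) (𝓝 (Zf J t x)) := by
    have h1 := (hJc.tendsto 0).mono_left (nhdsWithin_le_nhds (s := Ioi (0:ℝ)))
    simpa [abs_of_pos (by linarith : 0 < t), abs_of_nonneg hx] using h1
  refine ge_of_tendsto hlim ?_
  filter_upwards [Ioo_mem_nhdsGT (by linarith : 0 < t - 3 / 2)] with s hs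
  obtain ⟨hs0, hst⟩ := hs
  have hp : 1 < Real.exp s := Real.one_lt_exp_iff.2 hs0
  have hpp : 0 < Real.exp (2 * s) := Real.exp_pos _
  have hd := dil h hp
  have h1 := hd.static (t := t - s) (x := x / Real.exp (2 * s)) (by linarith) (by positivity)
  rw [dil_Z] at h1
  rw [abs_of_pos (by linarith : 0 < t - s), abs_of_nonneg (by positivity :
    0 ≤ x / Real.exp (2 * s))]
  have h2 := mul_le_mul_of_nonneg_left h1 hpp.le
  rwa [← mul_assoc, mul_inv_cancel₀ hpp.ne', one_mul] at h2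

/-- the static theorem for all functions of the class -/
theorem st_all (h : IsSig F b) {t x : ℝ} (ht : 3 / 2 ≤ t) (hx : 0 ≤ x) :
    Zf F t x ≤ Zf J t x := by
  rcases ht.eq_or_lt with h32 | h32
  swap
  · exact st_gt h h32 hx
  subst h32
  -- continuity in `t` at `3/2`
  have hp : 1 < Real.exp 1 := Real.one_lt_exp_iff.2 one_pos
  have hd := dil h hp
  have hq : (Real.exp 1)⁻¹ < 1 := hd.q1
  have cF : Continuous (fun t : ℝ => Real.exp 2 *
      Zf (fun z => F ((Real.exp 1 : ℝ) * z) / (Real.exp 1 : ℝ)) |t - 1| |x / Real.exp 2|) := by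
    have h1 : Continuous (fun t : ℝ => ((t - 1, x / Real.exp 2) : ℝ × ℝ)) := by fun_prop
    exact continuous_const.mul ((hd.an.Zf_cont hq).comp h1)
  have cJ : Continuous (fun t : ℝ => Zf J |t| |x|) := by
    have h1 : Continuous (fun t : ℝ => ((t, x) : ℝ × ℝ)) := by fun_prop
    exact (an_J.Zf_cont one_pos).comp h1
  have hF : ∀ t : ℝ, 1 < t → Real.exp 2 *
      Zf (fun z => F ((Real.exp 1 : ℝ) * z) / (Real.exp 1 : ℝ)) |t - 1| |x / Real.exp 2| =
      Zf F t x := by
    intro t ht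
    have h3 := dil_Z F 1 t x
    rw [mul_one] at h3
    rw [abs_of_pos (by linarith : 0 < t - 1), abs_of_nonneg (by positivity : 0 ≤ x / Real.exp 2),
      h3, ← mul_assoc, mul_inv_cancel₀ (Real.exp_pos 2).ne', one_mul]
  have hle : (Real.exp 2 * Zf (fun z => F ((Real.exp 1 : ℝ) * z) / (Real.exp 1 : ℝ))
      |(3 / 2 : ℝ) - 1| |x / Real.exp 2|) ≤ Zf J |(3 / 2 : ℝ)| |x| := by
    refine le_of_tendsto_of_tendsto
      ((cF.tendsto (3 / 2)).mono_left (nhdsWithin_le_nhds (s := Ioi (3 / 2 : ℝ))))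
      ((cJ.tendsto (3 / 2)).mono_left (nhdsWithin_le_nhds (s := Ioi (3 / 2 : ℝ)))) ?_
    filter_upwards [self_mem_nhdsWithin] with t ht
    have ht' : 3 / 2 < t := ht
    rw [hF t (by linarith), abs_of_pos (by linarith : 0 < t), abs_of_nonneg hx]
    exact st_gt h ht' hx
  rwa [hF (3 / 2) (by norm_num), abs_of_pos (by norm_num : (0:ℝ) < 3 / 2), abs_of_nonneg hx] at hle

/-- the final theorem for `r >= e^(3/2)` -/
theorem fin_st {lam r : ℝ} (h2 : 2 ≤ lam) (hr : Real.exp (3 / 2) ≤ r) :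
    IsGreatest {x : ℝ | ∃ F : ℂ → ℂ, ClassSigma F ∧ x = integralMean lam r F}
      (integralMean lam r (fun z => z + z⁻¹)) ∧
    ∀ F : ℂ → ℂ, ClassSigma F →
      (integralMean lam r F = integralMean lam r (fun z => z + z⁻¹) ↔
        ∃ c : ℂ, ‖c‖ = 1 ∧ ∀ z : ℂ, 1 < ‖z‖ → F z = z + c / z) := by
  have hr1 : 1 < r := lt_of_lt_of_le (Real.one_lt_exp_iff.2 (by norm_num)) hr
  have hr0 : 0 < r := by linarith
  have hlog : 3 / 2 ≤ Real.log r := (Real.le_log_iff_exp_le hr0).2 hr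
  have hlt : ∀ F : ℂ → ℂ, ∀ b : ℕ → ℂ, IsSig F b → ‖b 1‖ < 1 →
      integralMean lam r F < integralMean lam r (fun z => z + z⁻¹) := fun F b hb h1 =>
    all_lt_at hb h1 h2 hr1 fun x hx => st_all hb hlog hx.le
  have hiff : ∀ F : ℂ → ℂ, ClassSigma F →
      (integralMean lam r F = integralMean lam r (fun z => z + z⁻¹) ↔
        ∃ c : ℂ, ‖c‖ = 1 ∧ ∀ z : ℂ, 1 < ‖z‖ → F z = z + c / z) := by
    intro F hF
    obtain ⟨b, hb⟩ := hF.isSig
    constructor
    · intro he
      by_cases h1 : ‖b 1‖ < 1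
      · exact absurd he (hlt F b hb h1).ne
      · exact ⟨b 1, hb.eq_of_norm_one h1⟩
    · rintro ⟨c, hc, hFc⟩
      exact integralMean_rotJ hc hFc hr1
  refine ⟨⟨⟨_, classSigma_J, rfl⟩, ?_⟩, hiff⟩
  rintro x ⟨F, hF, rfl⟩
  obtain ⟨b, hb⟩ := hF.isSig
  by_cases h1 : ‖b 1‖ < 1
  · exact (hlt F b hb h1).le
  · exact ((hiff F hF).2 ⟨b 1, hb.eq_of_norm_one h1⟩).le

end Pool.Agent.H13.E32
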